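import Mathlib

namespace Pool.Agent.Results.MP_64ab56_co.AllEqualitiesFail

/-- `G` contains a subdivision of `H` as a subgraph: there are distinct branch vertices `f a`
for the vertices `a` of `H` and, for the edges `e` of `H`, pairwise disjoint sets `I e` of further
vertices, such that for every edge `ab` of `H` some path of `G` joins `f a` to `f b` with all its
inner vertices in `I ab`. -/
def HasSubdivision {A V : Type*} (H : SimpleGraph A) (G : SimpleGraph V) : Prop :=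
  ∃ (f : A → V) (I : Sym2 A → Set V), Function.Injective f ∧
    (∀ e ∈ H.edgeSet, ∀ a, f a ∉ I e) ∧
    (∀ e ∈ H.edgeSet, ∀ e' ∈ H.edgeSet, e ≠ e' → Disjoint (I e) (I e')) ∧
    (∀ a b, H.Adj a b → ∃ p : G.Walk (f a) (f b), p.IsPath ∧
      ∀ x ∈ p.support, x = f a ∨ x = f b ∨ x ∈ I s(a, b))

/-- nonplanar graphs, by Kuratowski: those containing a subdivision of `K₅` or of `K₃,₃` -/
def Nonplanar {V : Type*} (G : SimpleGraph V) : Prop :=
  HasSubdivision (⊤ : SimpleGraph (Fin 5)) G ∨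
    HasSubdivision (completeBipartiteGraph (Fin 3) (Fin 3)) G

/-- the coarseness of `G`: the largest number of pairwise edge-disjoint nonplanar subgraphs -/
noncomputable def coarseness {V : Type*} (G : SimpleGraph V) : ℕ :=
  sSup {k : ℕ | ∃ F : Fin k → SimpleGraph V, (∀ i, F i ≤ G) ∧
    (∀ i j, i ≠ j → Disjoint (F i).edgeSet (F j).edgeSet) ∧ ∀ i, Nonplanar (F i)}

/-- the coarseness of the complete graph on `p` vertices -/
noncomputable def xi (p : ℕ) : ℕ := coarseness (⊤ : SimpleGraph (Fin p))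

/-! ### blocks -/

/-- building blocks: `K₅`, `K₃,₃`, and `K₃,₃` with one edge subdivided -/
inductive Block (V : Type) : Type
  | k5 (g : Fin 5 → V)
  | k33 (g : Fin 6 → V)
  | s33 (g : Fin 7 → V)

variable {V W : Type}

namespace Block

def pairs : Block V → List (V × V)
  | k5 g => [(g 0, g 1), (g 0, g 2), (g 0, g 3), (g 0, g 4), (g 1, g 2), (g 1, g 3), (g 1, g 4),
      (g 2, g 3), (g 2, g 4), (g 3, g 4)]
  | k33 g => [(g 0, g 3), (g 0, g 4), (g 0, g 5), (g 1, g 3), (g 1, g 4), (g 1, g 5),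
      (g 2, g 3), (g 2, g 4), (g 2, g 5)]
  | s33 g => [(g 0, g 4), (g 0, g 5), (g 1, g 3), (g 1, g 4), (g 1, g 5),
      (g 2, g 3), (g 2, g 4), (g 2, g 5), (g 0, g 6), (g 6, g 3)]

def Inj : Block V → Prop
  | k5 g => Function.Injective g
  | k33 g => Function.Injective g
  | s33 g => Function.Injective g

def map (f : V → W) : Block V → Block W
  | k5 g => k5 (f ∘ g)
  | k33 g => k33 (f ∘ g)
  | s33 g => s33 (f ∘ g)

lemma pairs_map (f : V → W) (b : Block V) : (b.map f).pairs = b.pairs.map (fun p => (f p.1, f p.2)) := by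
  cases b <;> rfl

lemma inj_map {f : V → W} (hf : Function.Injective f) {b : Block V} (hb : b.Inj) : (b.map f).Inj := by
  cases b <;> exact hf.comp hb

/-- the graph of a block -/
def graph (b : Block V) : SimpleGraph V := SimpleGraph.fromEdgeSet {e | ∃ p ∈ b.pairs, e = s(p.1, p.2)}

lemma adj_of_mem {b : Block V} {x y : V} (h : (x, y) ∈ b.pairs) (hne : x ≠ y) : b.graph.Adj x y := by
  rw [graph, SimpleGraph.fromEdgeSet_adj]
  exact ⟨⟨(x, y), h, rfl⟩, hne⟩

lemma edge_mem {b : Block V} {e : Sym2 V} (h : e ∈ b.graph.edgeSet) : ∃ p ∈ b.pairs, e = s(p.1, p.2) := by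
  rw [graph, SimpleGraph.edgeSet_fromEdgeSet] at h
  exact h.1

end Block

/-- a walk with one edge -/
lemma edge_path {G : SimpleGraph V} {x y : V} (h : G.Adj x y) (S : Set V) :
    ∃ p : G.Walk x y, p.IsPath ∧ ∀ z ∈ p.support, z = x ∨ z = y ∨ z ∈ S := by
  refine ⟨SimpleGraph.Walk.cons h SimpleGraph.Walk.nil, ?_, ?_⟩
  · rw [SimpleGraph.Walk.cons_isPath_iff]
    refine ⟨SimpleGraph.Walk.IsPath.nil, ?_⟩
    simpa using h.ne
  · intro z hz
    simp at hz
    tauto

lemma two_edge_path {G : SimpleGraph V} {x w y : V} (h : G.Adj x w) (h' : G.Adj w y) (hxy : x ≠ y)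
    (S : Set V) (hw : w ∈ S) :
    ∃ p : G.Walk x y, p.IsPath ∧ ∀ z ∈ p.support, z = x ∨ z = y ∨ z ∈ S := by
  refine ⟨SimpleGraph.Walk.cons h (SimpleGraph.Walk.cons h' SimpleGraph.Walk.nil), ?_, ?_⟩
  · rw [SimpleGraph.Walk.cons_isPath_iff, SimpleGraph.Walk.cons_isPath_iff]
    refine ⟨⟨SimpleGraph.Walk.IsPath.nil, ?_⟩, ?_⟩
    · simpa using h'.ne
    · simp [h.ne, hxy]
  · intro z hz
    simp at hz
    rcases hz with h | h | h
    · left; exact h
    · right; right; rw [h]; exact hw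
    · right; left; exact h

lemma k5_nonplanar (g : Fin 5 → V) (hg : Function.Injective g) : Nonplanar (Block.k5 g).graph := by
  left
  refine ⟨g, fun _ => ∅, hg, fun _ _ _ => by simp, fun _ _ _ _ _ => by simp, ?_⟩
  intro a b hab
  have hne : g a ≠ g b := fun h => hab.ne (hg h)
  apply edge_path
  have key : (g a, g b) ∈ (Block.k5 g).pairs ∨ (g b, g a) ∈ (Block.k5 g).pairs := by
    have : a ≠ b := hab.ne
    fin_cases a <;> fin_cases b <;> simp_all [Block.pairs]
  rcases key with h | h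
  · exact Block.adj_of_mem h hne
  · exact (Block.adj_of_mem h hne.symm).symm

def side (g : Fin 6 → V) : Fin 3 ⊕ Fin 3 → V
  | Sum.inl i => g (Fin.castLE (by omega) i)
  | Sum.inr i => g (Fin.natAdd 3 i)

lemma side_inj {g : Fin 6 → V} (hg : Function.Injective g) : Function.Injective (side g) := by
  rintro (a | a) (b | b) h
  · have := hg h
    congr 1
    ext
    have := congrArg Fin.val this
    simpa using this
  · have := congrArg Fin.val (hg h)
    simp at this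
    omega
  · have := congrArg Fin.val (hg h)
    simp at this
    omega
  · have := congrArg Fin.val (hg h)
    simp at this
    congr 1
    ext; exact this

lemma k33_nonplanar (g : Fin 6 → V) (hg : Function.Injective g) : Nonplanar (Block.k33 g).graph := by
  right
  refine ⟨side g, fun _ => ∅, side_inj hg, fun _ _ _ => by simp, fun _ _ _ _ _ => by simp, ?_⟩
  intro a b hab
  have hne : side g a ≠ side g b := fun h => hab.ne (side_inj hg h)
  apply edge_path
  have key : (side g a, side g b) ∈ (Block.k33 g).pairs ∨ (side g b, side g a) ∈ (Block.k33 g).pairs := by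
    rcases a with a | a <;> rcases b with b | b
    · simp at hab
    · left; fin_cases a <;> fin_cases b <;> simp [side, Block.pairs]
    · right; fin_cases a <;> fin_cases b <;> simp [side, Block.pairs]
    · simp at hab
  rcases key with h | h
  · exact Block.adj_of_mem h hne
  · exact (Block.adj_of_mem h hne.symm).symm

open Classical in
lemma s33_nonplanar (g : Fin 7 → V) (hg : Function.Injective g) : Nonplanar (Block.s33 g).graph := by
  right
  have hg' : Function.Injective (fun i : Fin 6 => g (Fin.castSucc i)) :=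
    hg.comp (Fin.castSucc_injective 6)
  have h6 : ∀ i : Fin 6, g (Fin.castSucc i) ≠ g 6 := by
    intro i h
    have := congrArg Fin.val (hg h)
    simp at this
    have hi := i.2
    omega
  have hside6 : ∀ a, side (fun i : Fin 6 => g (Fin.castSucc i)) a ≠ g 6 := by
    rintro (a | a)
    · exact h6 _
    · exact h6 _
  refine ⟨side (fun i : Fin 6 => g (Fin.castSucc i)), fun e => if e = s(Sum.inl 0, Sum.inr 0) then {g 6} else ∅,
    side_inj hg', ?_, ?_, ?_⟩
  · intro e _ a h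
    dsimp only at h
    split_ifs at h
    · exact hside6 a h
    · exact h
  · intro e _ e' _ hne
    by_cases h : e = s(Sum.inl 0, Sum.inr 0)
    · have h' : ¬ e' = s(Sum.inl 0, Sum.inr 0) := fun h' => hne (h.trans h'.symm)
      simp [h']
    · simp [h]
  · intro a b hab
    have hne : side (fun i : Fin 6 => g (Fin.castSucc i)) a ≠ side (fun i : Fin 6 => g (Fin.castSucc i)) b :=
      fun h => hab.ne (side_inj hg' h)
    dsimp only
    by_cases h0 : s(a, b) = s(Sum.inl 0, Sum.inr 0)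
    · rw [if_pos h0]
      have e1 : (Block.s33 g).graph.Adj (g 0) (g 6) := by
        apply Block.adj_of_mem
        · simp [Block.pairs]
        · exact h6 0
      have e2 : (Block.s33 g).graph.Adj (g 6) (g 3) := by
        apply Block.adj_of_mem
        · simp [Block.pairs]
        · exact (h6 3).symm
      rw [Sym2.eq_iff] at h0
      rcases h0 with ⟨rfl, rfl⟩ | ⟨rfl, rfl⟩
      · exact two_edge_path e1 e2 hne _ rfl
      · exact two_edge_path e2.symm e1.symm hne _ rfl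
    · rw [if_neg h0]
      apply edge_path
      have key : (side (fun i : Fin 6 => g (Fin.castSucc i)) a, side (fun i : Fin 6 => g (Fin.castSucc i)) b) ∈ (Block.s33 g).pairs ∨
          (side (fun i : Fin 6 => g (Fin.castSucc i)) b, side (fun i : Fin 6 => g (Fin.castSucc i)) a) ∈ (Block.s33 g).pairs := by
        rcases a with a | a <;> rcases b with b | b
        · simp at hab
        · left
          have h00 : ¬ (a = 0 ∧ b = 0) := by
            rintro ⟨rfl, rfl⟩; exact h0 rfl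
          revert h00
          fin_cases a <;> fin_cases b <;> intro h00
          · simp at h00
          all_goals (simp only [Block.pairs, side, List.mem_cons]; simp)
        · right
          have h00 : ¬ (b = 0 ∧ a = 0) := by
            rintro ⟨rfl, rfl⟩; exact h0 Sym2.eq_swap
          revert h00
          fin_cases b <;> fin_cases a <;> intro h00
          · simp at h00
          all_goals (simp only [Block.pairs, side, List.mem_cons]; simp)
        · simp at hab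
      rcases key with h | h
      · exact Block.adj_of_mem h hne
      · exact (Block.adj_of_mem h hne.symm).symm

lemma block_nonplanar (b : Block V) (hb : b.Inj) : Nonplanar b.graph := by
  cases b with
  | k5 g => exact k5_nonplanar g hb
  | k33 g => exact k33_nonplanar g hb
  | s33 g => exact s33_nonplanar g hb

/-! ### packings -/

/-- two pairs are different as unordered pairs -/
def Diff (p q : V × V) : Prop := ¬ (p.1 = q.1 ∧ p.2 = q.2) ∧ ¬ (p.1 = q.2 ∧ p.2 = q.1)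

lemma diff_iff (p q : V × V) : Diff p q ↔ s(p.1, p.2) ≠ s(q.1, q.2) := by
  rw [Diff, Ne, Sym2.eq_iff]; tauto

def Disj (b c : Block V) : Prop := ∀ p ∈ b.pairs, ∀ q ∈ c.pairs, Diff p q

/-- the set `S` of pairs contains the pairs of `k` disjoint blocks -/
def Pk (S : Set (Sym2 V)) (k : ℕ) : Prop :=
  ∃ L : List (Block V), L.length = k ∧ (∀ b ∈ L, b.Inj) ∧ (∀ b ∈ L, ∀ p ∈ b.pairs, s(p.1, p.2) ∈ S) ∧
    L.Pairwise Disj

lemma Pk.mono {S T : Set (Sym2 V)} {k : ℕ} (h : Pk S k) (hST : S ⊆ T) : Pk T k := by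
  obtain ⟨L, h1, h2, h3, h4⟩ := h
  exact ⟨L, h1, h2, fun b hb p hp => hST (h3 b hb p hp), h4⟩

lemma Pk.union {S T : Set (Sym2 V)} {k l : ℕ} (h : Pk S k) (h' : Pk T l) (hd : Disjoint S T) :
    Pk (S ∪ T) (k + l) := by
  obtain ⟨L, h1, h2, h3, h4⟩ := h
  obtain ⟨M, m1, m2, m3, m4⟩ := h'
  refine ⟨L ++ M, by rw [List.length_append, h1, m1], ?_, ?_, ?_⟩
  · intro b hb
    rw [List.mem_append] at hb
    rcases hb with hb | hb
    · exact h2 b hb
    · exact m2 b hb
  · intro b hb p hp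
    rw [List.mem_append] at hb
    rcases hb with hb | hb
    · exact Or.inl (h3 b hb p hp)
    · exact Or.inr (m3 b hb p hp)
  · rw [List.pairwise_append]
    refine ⟨h4, m4, ?_⟩
    intro b hb c hc p hp q hq
    rw [diff_iff]
    intro he
    have a1 := h3 b hb p hp
    have a2 := m3 c hc q hq
    rw [he] at a1
    exact Set.disjoint_left.mp hd a1 a2

lemma Pk.map {S : Set (Sym2 V)} {k : ℕ} (h : Pk S k) (f : V → W) (hf : Function.Injective f)
    (T : Set (Sym2 W)) (hT : ∀ e ∈ S, Sym2.map f e ∈ T) : Pk T k := by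
  obtain ⟨L, h1, h2, h3, h4⟩ := h
  refine ⟨L.map (Block.map f), by rw [List.length_map, h1], ?_, ?_, ?_⟩
  · intro b hb
    rw [List.mem_map] at hb
    obtain ⟨c, hc, rfl⟩ := hb
    exact Block.inj_map hf (h2 c hc)
  · intro b hb p hp
    rw [List.mem_map] at hb
    obtain ⟨c, hc, rfl⟩ := hb
    rw [Block.pairs_map, List.mem_map] at hp
    obtain ⟨q, hq, rfl⟩ := hp
    exact hT _ (h3 c hc q hq)
  · rw [List.pairwise_map]
    refine h4.imp ?_
    intro b c hbc p hp q hq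
    rw [Block.pairs_map, List.mem_map] at hp hq
    obtain ⟨p', hp', rfl⟩ := hp
    obtain ⟨q', hq', rfl⟩ := hq
    have := hbc p' hp' q' hq'
    refine ⟨?_, ?_⟩
    · rintro ⟨e1, e2⟩
      exact this.1 ⟨hf e1, hf e2⟩
    · rintro ⟨e1, e2⟩
      exact this.2 ⟨hf e1, hf e2⟩

lemma walk_first {G : SimpleGraph V} {x y : V} (p : G.Walk x y) (h : x ≠ y) : G.edgeSet.Nonempty := by
  cases p with
  | nil => exact absurd rfl h
  | cons h q => exact ⟨s(_, _), (SimpleGraph.mem_edgeSet G).mpr h⟩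

lemma nonplanar_has_edge {G : SimpleGraph V} (h : Nonplanar G) : G.edgeSet.Nonempty := by
  have key : ∀ {A : Type} (H : SimpleGraph A) (a b : A), H.Adj a b → HasSubdivision H G → G.edgeSet.Nonempty := by
    intro A H a b hab hs
    obtain ⟨f, I, hf, _, _, hp⟩ := hs
    obtain ⟨p, _, _⟩ := hp a b hab
    have hne : f a ≠ f b := fun h => hab.ne (hf h)
    exact walk_first p hne
  rcases h with h | h
  · exact key _ 0 1 (by simp) h
  · exact key _ (Sum.inl 0) (Sum.inr 0) (by simp) h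

/-- a packing gives a lower bound for the coarseness -/
lemma le_xi {p k : ℕ} (h : Pk (Set.univ : Set (Sym2 (Fin p))) k) : k ≤ xi p := by
  obtain ⟨L, h1, h2, _, h4⟩ := h
  subst h1
  unfold xi coarseness
  apply le_csSup
  · refine ⟨Fintype.card (Sym2 (Fin p)), ?_⟩
    rintro m ⟨F, _, hF2, hF3⟩
    have hch : ∀ i, ∃ e, e ∈ (F i).edgeSet := fun i => nonplanar_has_edge (hF3 i)
    choose e he using hch
    have hinj : Function.Injective e := by
      intro i j hij
      by_contra hne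
      exact Set.disjoint_left.mp (hF2 i j hne) (he i) (hij ▸ he j)
    have := Fintype.card_le_of_injective e hinj
    rwa [Fintype.card_fin] at this
  · refine ⟨fun i => (L.get i).graph, fun _ => le_top, ?_, ?_⟩
    · have hd : ∀ b c : Block (Fin p), Disj b c → Disjoint b.graph.edgeSet c.graph.edgeSet := by
        intro b c hbc
        rw [Set.disjoint_left]
        intro e he he'
        obtain ⟨q, hq, rfl⟩ := Block.edge_mem he
        obtain ⟨r, hr, hqr⟩ := Block.edge_mem he'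
        exact (diff_iff q r).mp (hbc q hq r hr) hqr
      have hsym : ∀ b c : Block (Fin p), Disjoint b.graph.edgeSet c.graph.edgeSet → Disjoint c.graph.edgeSet b.graph.edgeSet :=
        fun b c h => h.symm
      have hp := List.pairwise_iff_get.mp h4
      intro i j hij
      rcases lt_or_gt_of_ne hij with h | h
      · exact hd _ _ (hp i j h)
      · exact (hd _ _ (hp j i h)).symm
    · intro i
      exact block_nonplanar _ (h2 _ (List.get_mem L i))

/-- a fast duplicate check with a bit mask -/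
def chk : ℕ → List ℕ → Bool
  | _, [] => true
  | m, c :: cs => !(m.testBit c) && chk (m ||| (1 <<< c)) cs

lemma chk_spec : ∀ (cs : List ℕ) (m : ℕ), chk m cs = true → cs.Nodup ∧ ∀ c ∈ cs, m.testBit c = false := by
  intro cs
  induction cs with
  | nil => intro m _; simp
  | cons c cs ih =>
    intro m h
    rw [chk, Bool.and_eq_true, Bool.not_eq_true'] at h
    obtain ⟨h1, h2⟩ := h
    obtain ⟨h3, h4⟩ := ih _ h2
    have h5 : ∀ d ∈ cs, m.testBit d = false ∧ d ≠ c := by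
      intro d hd
      have h6 := h4 d hd
      rw [Nat.testBit_or, Bool.or_eq_false_iff] at h6
      refine ⟨h6.1, ?_⟩
      rintro rfl
      have h7 := h6.2
      rw [Nat.testBit_shiftLeft] at h7
      simp at h7
    refine ⟨?_, ?_⟩
    · rw [List.nodup_cons]
      exact ⟨fun hc => (h5 c hc).2 rfl, h3⟩
    · intro d hd
      rw [List.mem_cons] at hd
      rcases hd with rfl | hd
      · exact h1
      · exact (h5 d hd).1

/-- codes of unordered pairs -/
def code {n : ℕ} (p : Fin n × Fin n) : ℕ := min p.1.val p.2.val * 32 + max p.1.val p.2.val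

def Block.inj? {n : ℕ} : Block (Fin n) → Bool
  | .k5 g => chk 0 ((List.ofFn g).map Fin.val)
  | .k33 g => chk 0 ((List.ofFn g).map Fin.val)
  | .s33 g => chk 0 ((List.ofFn g).map Fin.val)

lemma Block.inj_of {n : ℕ} {b : Block (Fin n)} (h : b.inj? = true) : b.Inj := by
  cases b <;>
  · have h1 := (chk_spec _ _ h).1
    exact List.nodup_ofFn.mp (List.Nodup.of_map _ h1)

/-- the check performed by computation -/
def good {n : ℕ} (L : List (Block (Fin n))) (Q : Fin n → Fin n → Bool) : Bool :=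
  L.all Block.inj? && (L.all (fun b => b.pairs.all (fun p => Q p.1 p.2)) &&
    chk 0 (L.flatMap (fun b => b.pairs.map code)))

lemma Pk.of_good {n : ℕ} (L : List (Block (Fin n))) (Q : Fin n → Fin n → Bool) (h : good L Q = true)
    (S : Set (Sym2 (Fin n))) (hS : ∀ a b, Q a b = true → s(a, b) ∈ S) : Pk S L.length := by
  rw [good, Bool.and_eq_true, Bool.and_eq_true, List.all_eq_true, List.all_eq_true] at h
  obtain ⟨h1, h2, h3⟩ := h
  refine ⟨L, rfl, fun b hb => Block.inj_of (h1 b hb), ?_, ?_⟩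
  · intro b hb p hp
    have := h2 b hb
    rw [List.all_eq_true] at this
    exact hS _ _ (this p hp)
  · have h4 := (chk_spec _ _ h3).1
    rw [List.nodup_flatMap] at h4
    refine h4.2.imp ?_
    intro b c hbc p hp q hq
    have hne : code p ≠ code q := by
      intro he
      exact hbc (List.mem_map.mpr ⟨p, hp, rfl⟩) (he ▸ List.mem_map.mpr ⟨q, hq, rfl⟩)
    refine ⟨?_, ?_⟩
    · rintro ⟨e1, e2⟩
      apply hne
      rw [code, code, e1, e2]
    · rintro ⟨e1, e2⟩
      apply hne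
      rw [code, code, e1, e2, min_comm, max_comm]

def l13 : List (Block (Fin 13)) := [
  .s33 ![9, 3, 8, 5, 4, 6, 1],
  .s33 ![11, 0, 6, 5, 4, 10, 2],
  .k33 ![1, 2, 5, 4, 10, 12],
  .s33 ![11, 4, 9, 10, 7, 12, 3],
  .k33 ![0, 3, 10, 7, 8, 12],
  .k33 ![1, 2, 12, 6, 7, 8],
  .s33 ![6, 5, 8, 9, 7, 11, 0],
  .k33 ![0, 1, 9, 2, 3, 11]]

def l16 : List (Block (Fin 16)) := [
  .k33 ![0, 7, 10, 3, 8, 11],
  .s33 ![2, 8, 11, 3, 5, 9, 1],
  .s33 ![13, 4, 8, 15, 11, 12, 0],
  .k33 ![2, 12, 14, 6, 11, 15],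
  .k33 ![1, 6, 15, 5, 10, 11],
  .k33 ![1, 6, 13, 4, 8, 15],
  .k33 ![2, 4, 14, 3, 8, 10],
  .k33 ![3, 7, 9, 5, 6, 15],
  .k33 ![0, 1, 13, 6, 7, 14],
  .k33 ![1, 3, 10, 9, 12, 13],
  .k33 ![0, 5, 7, 4, 10, 12],
  .k33 ![2, 9, 14, 4, 7, 12],
  .k33 ![0, 13, 14, 2, 5, 9]]

def l18 : List (Block (Fin 18)) := [
  .k5 ![11, 15, 4, 8, 1],
  .k5 ![2, 8, 13, 14, 6],
  .k5 ![4, 16, 2, 12, 7],
  .k5 ![5, 11, 3, 14, 10],
  .k5 ![16, 0, 3, 13, 9],
  .k5 ![15, 17, 6, 10, 0],
  .k33 ![0, 6, 17, 5, 7, 11],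
  .k33 ![0, 9, 16, 1, 8, 14],
  .k33 ![3, 9, 16, 6, 15, 17],
  .k33 ![7, 12, 17, 8, 13, 14],
  .k33 ![1, 4, 12, 3, 6, 10],
  .k33 ![0, 9, 17, 2, 4, 12],
  .k33 ![1, 4, 15, 5, 13, 14],
  .k33 ![1, 11, 15, 2, 7, 12],
  .k33 ![2, 7, 8, 3, 5, 10],
  .k33 ![5, 10, 11, 9, 13, 16]]

def l21 : List (Block (Fin 21)) := [
  .k5 ![11, 15, 4, 8, 1],
  .k5 ![2, 8, 13, 14, 6],
  .k5 ![4, 16, 2, 12, 7],
  .k5 ![5, 11, 3, 14, 10],
  .k5 ![16, 0, 3, 13, 9],
  .k5 ![15, 17, 6, 10, 0],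
  .k33 ![0, 6, 17, 5, 7, 11],
  .k33 ![0, 9, 16, 1, 8, 14],
  .k33 ![3, 9, 16, 6, 15, 17],
  .k33 ![7, 12, 17, 8, 13, 14],
  .k33 ![1, 4, 12, 3, 6, 10],
  .k33 ![0, 9, 17, 2, 4, 12],
  .k33 ![1, 4, 15, 5, 13, 14],
  .k33 ![1, 11, 15, 2, 7, 12],
  .k33 ![2, 7, 8, 3, 5, 10],
  .k33 ![5, 10, 11, 9, 13, 16],
  .k33 ![18, 19, 20, 0, 1, 2],
  .k33 ![18, 19, 20, 3, 4, 5],
  .k33 ![18, 19, 20, 6, 7, 8],
  .k33 ![18, 19, 20, 9, 10, 11],
  .k33 ![18, 19, 20, 12, 13, 14],
  .k33 ![18, 19, 20, 15, 16, 17]]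

def l24 : List (Block (Fin 24)) := [
  .k5 ![11, 15, 4, 8, 1],
  .k5 ![2, 8, 13, 14, 6],
  .k5 ![4, 16, 2, 12, 7],
  .k5 ![5, 11, 3, 14, 10],
  .k5 ![16, 0, 3, 13, 9],
  .k5 ![15, 17, 6, 10, 0],
  .k33 ![0, 6, 17, 5, 7, 11],
  .k33 ![0, 9, 16, 1, 8, 14],
  .k33 ![3, 9, 16, 6, 15, 17],
  .k33 ![7, 12, 17, 8, 13, 14],
  .k33 ![1, 4, 12, 3, 6, 10],
  .k33 ![0, 9, 17, 2, 4, 12],
  .k33 ![1, 4, 15, 5, 13, 14],
  .k33 ![1, 11, 15, 2, 7, 12],
  .k33 ![2, 7, 8, 3, 5, 10],
  .k33 ![5, 10, 11, 9, 13, 16],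
  .k33 ![18, 19, 20, 0, 1, 2],
  .k33 ![18, 19, 20, 3, 4, 5],
  .k33 ![18, 19, 20, 6, 7, 8],
  .k33 ![18, 19, 20, 9, 10, 11],
  .k33 ![18, 19, 20, 12, 13, 14],
  .k33 ![18, 19, 20, 15, 16, 17],
  .k33 ![21, 22, 23, 0, 1, 2],
  .k33 ![21, 22, 23, 3, 4, 5],
  .k33 ![21, 22, 23, 6, 7, 8],
  .k33 ![21, 22, 23, 9, 10, 11],
  .k33 ![21, 22, 23, 12, 13, 14],
  .k33 ![21, 22, 23, 15, 16, 17],
  .k33 ![21, 22, 23, 18, 19, 20]]

def l27 : List (Block (Fin 27)) := [
  .k5 ![11, 15, 4, 8, 1],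
  .k5 ![2, 8, 13, 14, 6],
  .k5 ![4, 16, 2, 12, 7],
  .k5 ![5, 11, 3, 14, 10],
  .k5 ![16, 0, 3, 13, 9],
  .k5 ![15, 17, 6, 10, 0],
  .k33 ![0, 6, 17, 5, 7, 11],
  .k33 ![0, 9, 16, 1, 8, 14],
  .k33 ![3, 9, 16, 6, 15, 17],
  .k33 ![7, 12, 17, 8, 13, 14],
  .k33 ![1, 4, 12, 3, 6, 10],
  .k33 ![0, 9, 17, 2, 4, 12],
  .k33 ![1, 4, 15, 5, 13, 14],
  .k33 ![1, 11, 15, 2, 7, 12],
  .k33 ![2, 7, 8, 3, 5, 10],
  .k33 ![5, 10, 11, 9, 13, 16],
  .k33 ![18, 19, 20, 0, 1, 2],
  .k33 ![18, 19, 20, 3, 4, 5],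
  .k33 ![18, 19, 20, 6, 7, 8],
  .k33 ![18, 19, 20, 9, 10, 11],
  .k33 ![18, 19, 20, 12, 13, 14],
  .k33 ![18, 19, 20, 15, 16, 17],
  .k33 ![21, 22, 23, 0, 1, 2],
  .k33 ![21, 22, 23, 3, 4, 5],
  .k33 ![21, 22, 23, 6, 7, 8],
  .k33 ![21, 22, 23, 9, 10, 11],
  .k33 ![21, 22, 23, 12, 13, 14],
  .k33 ![21, 22, 23, 15, 16, 17],
  .k33 ![21, 22, 23, 18, 19, 20],
  .k33 ![24, 25, 26, 0, 1, 2],
  .k33 ![24, 25, 26, 3, 4, 5],
  .k33 ![24, 25, 26, 6, 7, 8],
  .k33 ![24, 25, 26, 9, 10, 11],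
  .k33 ![24, 25, 26, 12, 13, 14],
  .k33 ![24, 25, 26, 15, 16, 17],
  .k33 ![24, 25, 26, 18, 19, 20],
  .k33 ![24, 25, 26, 21, 22, 23]]

def l25 : List (Block (Fin 25)) := [
  .k33 ![0, 4, 7, 14, 22, 24],
  .k33 ![1, 5, 8, 12, 23, 24],
  .k33 ![2, 3, 6, 13, 21, 24],
  .k33 ![0, 4, 8, 1, 13, 20],
  .k33 ![1, 5, 6, 2, 14, 18],
  .k33 ![2, 3, 7, 0, 12, 19],
  .k33 ![0, 4, 6, 8, 12, 23],
  .k33 ![1, 5, 7, 6, 13, 21],
  .k33 ![2, 3, 8, 7, 14, 22],
  .k33 ![0, 3, 4, 6, 10, 15],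
  .k33 ![1, 4, 5, 7, 11, 16],
  .k33 ![2, 5, 3, 8, 9, 17],
  .k33 ![0, 1, 4, 5, 9, 17],
  .k33 ![1, 2, 5, 3, 10, 15],
  .k33 ![2, 0, 3, 4, 11, 16],
  .k33 ![0, 4, 8, 18, 19, 21],
  .k33 ![1, 5, 6, 19, 20, 22],
  .k33 ![2, 3, 7, 20, 18, 23],
  .k33 ![6, 7, 8, 15, 16, 17],
  .k33 ![6, 7, 8, 9, 10, 11]]

def l99 : List (Block (Fin 18)) := [
  .k33 ![0, 1, 2, 9, 10, 11],
  .k33 ![0, 1, 2, 12, 13, 14],
  .k33 ![0, 1, 2, 15, 16, 17],
  .k33 ![3, 4, 5, 9, 10, 11],
  .k33 ![3, 4, 5, 12, 13, 14],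
  .k33 ![3, 4, 5, 15, 16, 17],
  .k33 ![6, 7, 8, 9, 10, 11],
  .k33 ![6, 7, 8, 12, 13, 14],
  .k33 ![6, 7, 8, 15, 16, 17]]

lemma pk13 : Pk (Set.univ : Set (Sym2 (Fin 13))) 8 :=
  Pk.of_good l13 (fun _ _ => true) (by decide +kernel) _ (fun _ _ _ => Set.mem_univ _)

lemma pk16 : Pk (Set.univ : Set (Sym2 (Fin 16))) 13 :=
  Pk.of_good l16 (fun _ _ => true) (by decide +kernel) _ (fun _ _ _ => Set.mem_univ _)

lemma pk18 : Pk (Set.univ : Set (Sym2 (Fin 18))) 16 :=
  Pk.of_good l18 (fun _ _ => true) (by decide +kernel) _ (fun _ _ _ => Set.mem_univ _)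

lemma pk21 : Pk (Set.univ : Set (Sym2 (Fin 21))) 22 :=
  Pk.of_good l21 (fun _ _ => true) (by decide +kernel) _ (fun _ _ _ => Set.mem_univ _)

lemma pk24 : Pk (Set.univ : Set (Sym2 (Fin 24))) 29 :=
  Pk.of_good l24 (fun _ _ => true) (by decide +kernel) _ (fun _ _ _ => Set.mem_univ _)

lemma pk27 : Pk (Set.univ : Set (Sym2 (Fin 27))) 37 :=
  Pk.of_good l27 (fun _ _ => true) (by decide +kernel) _ (fun _ _ _ => Set.mem_univ _)

/-- the join of a complete graph on 9 vertices and 16 independent vertices -/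
lemma pk25 : Pk ({e | ∃ x ∈ e, x.val < 9} : Set (Sym2 (Fin 25))) 20 :=
  Pk.of_good l25 (fun a b => decide (a.val < 9) || decide (b.val < 9)) (by decide +kernel) _ (by
    intro a b h
    rw [Bool.or_eq_true, decide_eq_true_eq, decide_eq_true_eq] at h
    rcases h with h | h
    · exact ⟨a, Sym2.mem_mk_left a b, h⟩
    · exact ⟨b, Sym2.mem_mk_right a b, h⟩)

/-- the complete bipartite graph with parts of size nine -/
lemma pk99 : Pk ({e | ∃ x ∈ e, ∃ y ∈ e, x.val < 9 ∧ 9 ≤ y.val} : Set (Sym2 (Fin 18))) 9 :=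
  Pk.of_good l99 (fun a b => (decide (a.val < 9) && decide (9 ≤ b.val))) (by decide +kernel) _ (by
    intro a b h
    rw [Bool.and_eq_true, decide_eq_true_eq, decide_eq_true_eq] at h
    exact ⟨a, Sym2.mem_mk_left a b, b, Sym2.mem_mk_right a b, h⟩)

/-- pairs among the first vertices -/
def Eset (p m : ℕ) : Set (Sym2 (Fin p)) := {e | ∀ x ∈ e, x.val < 16 + 9 * m}

/-- pairs meeting the new level, inside the new level and the first sixteen vertices -/
def Tset (p m : ℕ) : Set (Sym2 (Fin p)) :=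
  {e | (∃ x ∈ e, 16 + 9 * m ≤ x.val) ∧ ∀ x ∈ e, x.val < 16 ∨ (16 + 9 * m ≤ x.val ∧ x.val < 25 + 9 * m)}

/-- pairs between the levels below `t` and the new level -/
def Vset (p t m : ℕ) : Set (Sym2 (Fin p)) :=
  {e | (∃ x ∈ e, 16 ≤ x.val ∧ x.val < 16 + 9 * t) ∧ ∃ y ∈ e, 16 + 9 * m ≤ y.val ∧ y.val < 25 + 9 * m}

/-- pairs between level `i` and the new level -/
def Uset (p i m : ℕ) : Set (Sym2 (Fin p)) :=
  {e | (∃ x ∈ e, 16 + 9 * i ≤ x.val ∧ x.val < 25 + 9 * i) ∧ ∃ y ∈ e, 16 + 9 * m ≤ y.val ∧ y.val < 25 + 9 * m}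

lemma pkT (p m : ℕ) (hp : 25 + 9 * m ≤ p) : Pk (Tset p m) 20 := by
  refine pk25.map (fun i : Fin 25 => (⟨if i.val < 9 then 16 + 9 * m + i.val else i.val - 9, by
    have := i.2
    split_ifs <;> omega⟩ : Fin p)) ?_ _ ?_
  · intro i j hij
    have h := congrArg Fin.val hij
    have hi := i.2
    have hj := j.2
    dsimp only at h
    ext
    split_ifs at h <;> omega
  · rintro e ⟨x, hx, hx9⟩
    refine ⟨⟨_, Sym2.mem_map.mpr ⟨x, hx, rfl⟩, ?_⟩, ?_⟩
    · dsimp only
      rw [if_pos hx9]; omega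
    · intro y hy
      obtain ⟨z, _, rfl⟩ := Sym2.mem_map.mp hy
      have hz2 := z.2
      dsimp only
      split_ifs <;> omega

lemma pkU (p i m : ℕ) (him : i < m) (hp : 25 + 9 * m ≤ p) : Pk (Uset p i m) 9 := by
  refine pk99.map (fun k : Fin 18 => (⟨if k.val < 9 then 16 + 9 * i + k.val else 16 + 9 * m + (k.val - 9), by
    have := k.2
    split_ifs <;> omega⟩ : Fin p)) ?_ _ ?_
  · intro k j hij
    have h := congrArg Fin.val hij
    have hk := k.2
    have hj := j.2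
    dsimp only at h
    ext
    split_ifs at h <;> omega
  · rintro e ⟨x, hx, y, hy, hx9, hy9⟩
    have hy2 := y.2
    refine ⟨⟨_, Sym2.mem_map.mpr ⟨x, hx, rfl⟩, ?_⟩, ⟨_, Sym2.mem_map.mpr ⟨y, hy, rfl⟩, ?_⟩⟩
    · dsimp only
      rw [if_pos hx9]; omega
    · dsimp only
      rw [if_neg (by omega)]; omega

lemma pk_empty (S : Set (Sym2 V)) : Pk S 0 := ⟨[], rfl, by simp, by simp, List.Pairwise.nil⟩

lemma pkV (p m : ℕ) (hp : 25 + 9 * m ≤ p) : ∀ t, t ≤ m → Pk (Vset p t m) (9 * t) := by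
  intro t
  induction t with
  | zero => intro _; exact pk_empty _
  | succ t ih =>
    intro ht
    have h1 := ih (by omega)
    have h2 := pkU p t m (by omega) hp
    have hd : Disjoint (Vset p t m) (Uset p t m) := by
      rw [Set.disjoint_left]
      intro e he he'
      induction e using Sym2.ind with
      | _ a b =>
        simp only [Vset, Uset, Set.mem_ofPred_eq, Sym2.mem_iff] at he he'
        obtain ⟨⟨x, hx, hx2⟩, y, hy, hy2⟩ := he
        obtain ⟨⟨x', hx', hx2'⟩, y', hy', hy2'⟩ := he'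
        rcases hx with rfl | rfl <;> rcases hy with rfl | rfl <;> rcases hx' with rfl | rfl <;>
          rcases hy' with rfl | rfl <;> omega
    have h3 := h1.union h2 hd
    have h4 : Pk (Vset p (t + 1) m) (9 * t + 9) := by
      refine h3.mono ?_
      rintro e (he | he)
      · obtain ⟨⟨x, hx, hx2⟩, hy⟩ := he
        exact ⟨⟨x, hx, by omega⟩, hy⟩
      · obtain ⟨⟨x, hx, hx2⟩, hy⟩ := he
        exact ⟨⟨x, hx, by omega⟩, hy⟩
    have e : 9 * (t + 1) = 9 * t + 9 := by ring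
    rw [e]; exact h4

/-- the numbers of blocks -/
def cnt : ℕ → ℕ
  | 0 => 13
  | m + 1 => cnt m + (20 + 9 * m)

lemma cnt_eq (m : ℕ) : 2 * cnt m = 9 * (m + 1) ^ 2 + 13 * (m + 1) + 4 := by
  induction m with
  | zero => rfl
  | succ m ih => rw [cnt]; linarith [ih]

lemma pkE (p : ℕ) : ∀ m, 16 + 9 * m ≤ p → Pk (Eset p m) (cnt m) := by
  intro m
  induction m with
  | zero =>
    intro hp
    refine pk16.map (fun i : Fin 16 => (⟨i.val, by have := i.2; omega⟩ : Fin p)) ?_ _ ?_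
    · intro i j hij
      have h := congrArg Fin.val hij
      ext; exact h
    · intro e _ y hy
      obtain ⟨z, _, rfl⟩ := Sym2.mem_map.mp hy
      have := z.2
      dsimp only
      omega
  | succ m ih =>
    intro hp
    have h1 := ih (by omega)
    have h2 := pkT p m (by omega)
    have h3 := pkV p m (by omega) m le_rfl
    have hd1 : Disjoint (Tset p m) (Vset p m m) := by
      rw [Set.disjoint_left]
      intro e he he'
      obtain ⟨_, h⟩ := he
      obtain ⟨⟨x, hx, hx2⟩, _⟩ := he'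
      have := h x hx
      omega
    have h4 := h2.union h3 hd1
    have hd2 : Disjoint (Eset p m) (Tset p m ∪ Vset p m m) := by
      rw [Set.disjoint_left]
      rintro e he (he' | he')
      · obtain ⟨⟨x, hx, hx2⟩, _⟩ := he'
        have := he x hx
        omega
      · obtain ⟨_, y, hy, hy2⟩ := he'
        have := he y hy
        omega
    have h5 := h1.union h4 hd2
    refine h5.mono ?_
    rintro e (he | he | he)
    · intro x hx
      have := he x hx
      omega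
    · intro x hx
      have := he.2 x hx
      omega
    · induction e using Sym2.ind with
      | _ a b =>
        intro z hz
        simp only [Vset, Set.mem_ofPred_eq, Sym2.mem_iff] at he hz
        obtain ⟨⟨x, hx, hx2⟩, y, hy, hy2⟩ := he
        rcases hx with rfl | rfl <;> rcases hy with rfl | rfl <;> rcases hz with rfl | rfl <;> omega

lemma family (n : ℕ) (hn : 1 ≤ n) : 9 * n ^ 2 + 13 * n + 4 ≤ 2 * xi (9 * n + 7) := by
  obtain ⟨m, rfl⟩ : ∃ m, n = m + 1 := ⟨n - 1, by omega⟩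
  have h1 := pkE (9 * (m + 1) + 7) m (by omega)
  have h2 := le_xi (h1.mono (Set.subset_univ _))
  have h3 := cnt_eq m
  omega

/-- All the equalities asked about fail: the coarseness of each of the complete graphs in question
is strictly larger than the stated value. -/
theorem result :
    8 ≤ xi 13 ∧ 16 ≤ xi 18 ∧ 22 ≤ xi 21 ∧ 29 ≤ xi 24 ∧ 37 ≤ xi 27 ∧
    (∀ n : ℕ, 1 ≤ n → (9 * n ^ 2 + 13 * n + 2) / 2 + 1 ≤ xi (9 * n + 7)) ∧
    (xi 13 ≠ 7 ∧ xi 18 ≠ 15 ∧ xi 21 ≠ 21 ∧ xi 24 ≠ 28 ∧ xi 27 ≠ 36 ∧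
      ∀ n : ℕ, 1 ≤ n → 2 * xi (9 * n + 7) ≠ 9 * n ^ 2 + 13 * n + 2) := by
  have h13 := le_xi pk13
  have h18 := le_xi pk18
  have h21 := le_xi pk21
  have h24 := le_xi pk24
  have h27 := le_xi pk27
  refine ⟨h13, h18, h21, h24, h27, ?_, by omega, by omega, by omega, by omega, by omega, ?_⟩
  · intro n hn
    have := family n hn
    omega
  · intro n hn
    have := family n hn
    omega

end Pool.Agent.Results.MP_64ab56_co.AllEqualitiesFail
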